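import Pool.Agent.Helper705.Hopf.HNon
import Pool.Agent.Helper705.Hopf.HDer

/-!
# Residual finiteness of soluble relatively free groups

`nonhopf` repeats the starting proof of S02725 (a soluble variety with a non-Hopfian relatively free
group of rank 8); `not_rf` is Malcev's argument.
-/

set_option autoImplicit false

namespace Pool.Agent.Q113.RFSol

open Pool.Agent.Helper705.Hopf

/-- There is a set of group laws such that all groups satisfying them are soluble of bounded derived length, and for some finite n the relatively free group of rank n has a surjective endomorphism that is not injective. -/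
theorem nonhopf :
    ∃ (L : Set (FreeGroup ℕ)) (d : ℕ),
      (∀ (G : Type) [Group G],
        (∀ w ∈ L, ∀ φ : FreeGroup ℕ →* G, φ w = 1) → derivedSeries G d = ⊥) ∧
      ∃ n : ℕ, ∃ f :
        (FreeGroup (Fin n) ⧸ Subgroup.normalClosure
          {x : FreeGroup (Fin n) | ∃ w ∈ L, ∃ φ : FreeGroup ℕ →* FreeGroup (Fin n), φ w = x}) →*
        (FreeGroup (Fin n) ⧸ Subgroup.normalClosure
          {x : FreeGroup (Fin n) | ∃ w ∈ L, ∃ φ : FreeGroup ℕ →* FreeGroup (Fin n), φ w = x}),
        Function.Surjective f ∧ ¬ Function.Injective f := by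
  obtain ⟨d, hd⟩ := (inferInstance : Group.IsSolvable DL.GG).solvable
  let L : Set (FreeGroup ℕ) := {w | ∀ ψ : FreeGroup ℕ →* DL.GG, ψ w = 1}
  refine ⟨L, d, ?_, 8, ?_⟩
  · intro G _ hG
    apply derived_of_laws d
    intro w hw φ
    apply hG w _ φ
    intro ψ
    have h1 : ψ w ∈ derivedSeries DL.GG d :=
      map_derivedSeries_le_derivedSeries ψ d ⟨w, hw, rfl⟩
    rw [hd] at h1
    exact h1
  -- the verbal subgroup
  set R : Subgroup (FreeGroup (Fin 8)) := Subgroup.normalClosure
    {x : FreeGroup (Fin 8) | ∃ w ∈ L, ∃ φ : FreeGroup ℕ →* FreeGroup (Fin 8), φ w = x} with hR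
  have hRle : ∀ u ∈ R, ∀ ψ : FreeGroup (Fin 8) →* DL.GG, ψ u = 1 := by
    intro u hu ψ
    have hle : R ≤ ψ.ker := by
      apply Subgroup.normalClosure_le_normal
      rintro _ ⟨w, hw, φ, rfl⟩
      exact hw (ψ.comp φ)
    exact hle hu
  have hRge : ∀ u : FreeGroup (Fin 8), (∀ ψ : FreeGroup (Fin 8) →* DL.GG, ψ u = 1) → u ∈ R := by
    intro u hu
    let i : FreeGroup (Fin 8) →* FreeGroup ℕ := FreeGroup.lift (fun k => FreeGroup.of (k : ℕ))
    let q : FreeGroup ℕ →* FreeGroup (Fin 8) := FreeGroup.lift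
      (fun n => if hn : n < 8 then FreeGroup.of ⟨n, hn⟩ else 1)
    have hqi : q.comp i = MonoidHom.id _ := by
      apply FreeGroup.ext_hom
      intro k
      simp [i, q]
    have e : q (i u) = u := DFunLike.congr_fun hqi u
    apply Subgroup.subset_normalClosure
    exact ⟨i u, fun ψ => hu (ψ.comp i), q, e⟩
  -- endomorphisms of the free group
  let X : Fin 8 → FreeGroup (Fin 8) := fun k => FreeGroup.of k
  let wz : FreeGroup (Fin 8) := wF (bW X) (X 6) (X 7)
  let vz : FreeGroup (Fin 8) := vF (bW X) (X 6) (X 7)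
  let φw : FreeGroup (Fin 8) →* FreeGroup (Fin 8) :=
    FreeGroup.lift (fun k => if k = 7 then wz else FreeGroup.of k)
  let φv : FreeGroup (Fin 8) →* FreeGroup (Fin 8) :=
    FreeGroup.lift (fun k => if k = 7 then vz else FreeGroup.of k)
  have hRmap : ∀ (φ : FreeGroup (Fin 8) →* FreeGroup (Fin 8)), R ≤ R.comap φ := by
    intro φ u hu
    apply hRge
    intro ψ
    exact hRle u hu (ψ.comp φ)
  have hb : ∀ {G : Type} [Group G] (a a' : Fin 8 → G), (∀ k, k ≠ 7 → a k = a' k) →
      bW a = bW a' := by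
    intro G _ a a' h
    unfold bW rW gW
    rw [h 0 (by decide), h 1 (by decide), h 2 (by decide), h 3 (by decide), h 4 (by decide),
      h 5 (by decide), h 6 (by decide)]
  have hvz7 : φv (X 7) = vz := by simp [φv, X]
  have hwz7 : φw (X 7) = wz := by simp [φw, X]
  have hw6 : ∀ k, k ≠ 7 → φw (X k) = X k := by
    intro k hk; simp [φw, X, hk]
  have hv6 : ∀ k, k ≠ 7 → φv (X k) = X k := by
    intro k hk; simp [φv, X, hk]
  -- φw (φv (X 7)) = vF (bW X) (X 6) wz
  have h1 : φw (φv (X 7)) = vF (bW X) (X 6) wz := by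
    rw [hvz7]
    change φw (vF (bW X) (X 6) (X 7)) = _
    rw [map_vF, map_bW, hwz7, hw6 6 (by decide), hb (fun k => φw (X k)) X (fun k hk => hw6 k hk)]
  have h2 : φv (φw (X 7)) = wF (bW X) (X 6) vz := by
    rw [hwz7]
    change φv (wF (bW X) (X 6) (X 7)) = _
    rw [map_wF, map_bW, hvz7, hv6 6 (by decide), hb (fun k => φv (X k)) X (fun k hk => hv6 k hk)]
  have hlaw : ∀ k, (φw (φv (X k))) * (X k)⁻¹ ∈ R := by
    intro k
    by_cases hk : k = 7
    · subst hk
      apply hRge
      intro ψ
      rw [h1, map_mul, map_inv, map_vF, map_bW]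
      change vF (bW fun i => ψ (X i)) (ψ (X 6)) (ψ (wF (bW X) (X 6) (X 7))) * (ψ (X 7))⁻¹ = 1
      rw [map_wF, map_bW, Dat.law DL two_SL hYL (fun i => ψ (X i)), mul_inv_cancel]
    · rw [hv6 k hk, hw6 k hk, mul_inv_cancel]; exact one_mem _
  let f := QuotientGroup.map R R φw (hRmap φw)
  let g := QuotientGroup.map R R φv (hRmap φv)
  have hfg : f.comp g = MonoidHom.id _ := by
    apply QuotientGroup.monoidHom_ext
    apply FreeGroup.ext_hom
    intro k
    change (QuotientGroup.mk (φw (φv (X k))) : FreeGroup (Fin 8) ⧸ R) = QuotientGroup.mk (X k)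
    rw [← mul_inv_eq_one, ← QuotientGroup.mk_inv, ← QuotientGroup.mk_mul,
      QuotientGroup.eq_one_iff]
    exact hlaw k
  refine ⟨f, ?_, ?_⟩
  · intro x
    exact ⟨g x, DFunLike.congr_fun hfg x⟩
  · intro hinj
    have hgf : g (f (QuotientGroup.mk (X 7))) = QuotientGroup.mk (X 7) := by
      apply hinj
      exact DFunLike.congr_fun hfg (f (QuotientGroup.mk (X 7)))
    have h3 : (QuotientGroup.mk (φv (φw (X 7))) : FreeGroup (Fin 8) ⧸ R) =
        QuotientGroup.mk (X 7) := hgf
    rw [← mul_inv_eq_one, ← QuotientGroup.mk_inv, ← QuotientGroup.mk_mul,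
      QuotientGroup.eq_one_iff, h2] at h3
    have h4 := eq_of_map_mul_inv (FreeGroup.lift aL) _ _ (hRle _ h3 (FreeGroup.lift aL))
    have hvz : vz = vF (bW X) (X 6) (X 7) := rfl
    rw [hvz, map_wF, map_vF, map_bW] at h4
    have hX : ∀ k, (FreeGroup.lift aL) (X k) = aL k := fun k => FreeGroup.lift_apply_of
    have hX' : (fun k => (FreeGroup.lift aL) (X k)) = aL := funext hX
    have e6 := hX 6
    have e7 := hX 7
    rw [hX', e6, e7] at h4
    exact nonlaw h4

/-- Malcev: a surjective endomorphism of a finitely generated group kills no element that is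
outside some subgroup of finite index. -/
theorem malcev {G : Type} [Group G] [Group.FG G] (f : G →* G) (hf : Function.Surjective f)
    (k : G) (hk : f k = 1) (H : Subgroup G) (hH : H.index ≠ 0) : k ∈ H := by
  have hfi : H.FiniteIndex := ⟨hH⟩
  have hN : H.normalCore.FiniteIndex := inferInstance
  by_contra hkH
  let Q := G ⧸ H.normalCore
  have hQ : Finite Q := inferInstance
  have hfin : Finite (G →* Q) := by
    obtain ⟨S, hS⟩ := (Group.fg_def.1 (inferInstance : Group.FG G))
    have hinj : Function.Injective (fun φ : G →* Q => fun s : S => φ s.1) := by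
      intro φ ψ h
      apply MonoidHom.eq_of_eqOn_dense hS
      intro s hs
      exact congrFun h ⟨s, hs⟩
    exact Finite.of_injective _ hinj
  have hinj : Function.Injective (fun φ : G →* Q => φ.comp f) := by
    intro φ ψ h
    ext x
    obtain ⟨y, rfl⟩ := hf x
    exact DFunLike.congr_fun h y
  obtain ⟨φ, hφ⟩ := (Finite.injective_iff_surjective.1 hinj) (QuotientGroup.mk' H.normalCore)
  have h1 : QuotientGroup.mk' H.normalCore k = 1 := by
    rw [← hφ]
    simp [hk]
  rw [QuotientGroup.mk'_apply, QuotientGroup.eq_one_iff] at h1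
  exact hkH (H.normalCore_le h1)

end Pool.Agent.Q113.RFSol
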